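import Pool.Agent.helper90.FN.Goals
import Pool.Agent.helper20.HP.S0

/-!
Module BR: bridge between `PhiD` and the killed walk.
-/

set_option autoImplicit false

open scoped BigOperators Topology
open Filter MeasureTheory

namespace Pool.Agent.helper90.FN

open Finset
open Pool.Agent.helper72.UT (IsFor dep pth rt fors mem_fors fors_nonempty Reg lz)
open Pool.Agent.helper20.HP (ind HW W)

/-- the conditional mean as a sum over the skeleton -/
theorem BR_value (h1 : G1_stmt) (V : Type) [Fintype V] [DecidableEq V] (G : SimpleGraph V) (o : V)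
    (f : V → V) (D : Finset V) (hf : f ∈ fors G {o}) (hcl : Cl {o} D f) (s : ℕ) :
    PhiD G o f D s 1 = ∑ y ∈ D, if dep {o} f y ≤ s then
        EF G D (fun g => ∑ v, ind (rt D g v = y ∧ dep D g v = s - dep {o} f y)) else 0 := by
  unfold PhiD EF
  have e : ∀ g ∈ fors G D, bs o (glue D f g) s 1 = ∑ y ∈ D, if dep {o} f y ≤ s then
      ∑ v, ind (rt D g v = y ∧ dep D g v = s - dep {o} f y) else 0 := by
    intro g hg
    obtain ⟨-, -, hdep, -⟩ := h1 V G {o} D f g hf hcl hg
    unfold bs
    have e1 : ∀ v, ind (s ≤ dep {o} (glue D f g) v ∧ dep {o} (glue D f g) v < s + 1)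
        = ∑ y ∈ D, if dep {o} f y ≤ s then ind (rt D g v = y ∧ dep D g v = s - dep {o} f y) else 0 := by
      intro v
      have hrt : rt D g v ∈ D := (mem_fors.1 hg).rt_mem_B v
      rw [Finset.sum_eq_single (rt D g v)]
      · rw [hdep v]
        unfold ind
        by_cases h : dep {o} f (rt D g v) ≤ s
        · rw [if_pos h]
          congr 1
          apply propext
          constructor
          · rintro ⟨a, b⟩; exact ⟨rfl, by omega⟩
          · rintro ⟨-, a⟩; omega
        · rw [if_neg h, if_neg (by omega)]
      · intro y _ hy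
        split_ifs
        · unfold ind
          rw [if_neg (fun h => hy h.1.symm)]
        · rfl
      · intro h; exact absurd hrt h
    rw [Finset.sum_congr rfl fun v _ => e1 v, Finset.sum_comm]
    refine Finset.sum_congr rfl fun y _ => ?_
    split_ifs with h
    · rfl
    · exact Finset.sum_const_zero
  rw [Finset.sum_congr rfl e, Finset.sum_comm, Finset.sum_div]
  refine Finset.sum_congr rfl fun y _ => ?_
  split_ifs with h
  · rfl
  · rw [Finset.sum_const_zero, zero_div]

theorem BR (h1 : G1_stmt) (hct : CT_stmt) : BR_stmt := by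
  intro V _ _ G d K hreg hK o f D hf hcl s
  rw [BR_value h1 V G o f D hf hcl s]
  refine hasSum_sum fun y hy => ?_
  by_cases h : dep {o} f y ≤ s
  · simp only [if_pos h]
    exact hct V G d K hreg hK D y (s - dep {o} f y) hy
  · simp only [if_neg h]
    exact hasSum_zero

end Pool.Agent.helper90.FN
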