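import Pool.Agent.helper90.FN.Goals
import Pool.Agent.helper20.HP.S0

/-!
Module SL1: concentration of one window sum given the skeleton of a list.
-/

set_option autoImplicit false

open scoped BigOperators Topology
open Filter MeasureTheory

namespace Pool.Agent.helper90.FN

open Finset
open Pool.Agent.helper72.UT (IsFor dep pth rt fors mem_fors fors_nonempty Reg lz)
open Pool.Agent.helper20.HP (ind HW W Par CP ind_nonneg ind_le_one ind_mono ind_true ind_false)

section
variable {V : Type} [Fintype V] [DecidableEq V]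

theorem SL1_mono (G : SimpleGraph V) (B : Finset V) (F F' : (V → V) → ℝ)
    (h : ∀ f ∈ fors G B, F f ≤ F' f) : EF G B F ≤ EF G B F' := by
  unfold EF
  exact div_le_div_of_nonneg_right (Finset.sum_le_sum h) (Nat.cast_nonneg _)

theorem SL1_congr (G : SimpleGraph V) (B : Finset V) (F F' : (V → V) → ℝ)
    (h : ∀ f ∈ fors G B, F f = F' f) : EF G B F = EF G B F' := by
  unfold EF
  rw [Finset.sum_congr rfl h]

theorem SL1_add (G : SimpleGraph V) (B : Finset V) (F F' : (V → V) → ℝ) :
    EF G B (fun f => F f + F' f) = EF G B F + EF G B F' := by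
  unfold EF
  rw [Finset.sum_add_distrib, add_div]

theorem SL1_const (G : SimpleGraph V) (B : Finset V) (h : (fors G B).Nonempty) (c : ℝ) :
    EF G B (fun _ => c) = c := by
  unfold EF
  have : (0 : ℝ) < ((fors G B).card : ℝ) := by exact_mod_cast Finset.card_pos.2 h
  rw [Finset.sum_const, nsmul_eq_mul]
  field_simp

theorem SL1_const_le (G : SimpleGraph V) (B : Finset V) (c : ℝ) (hc : 0 ≤ c) :
    EF G B (fun _ => c) ≤ c := by
  by_cases h : (fors G B).Nonempty
  · rw [SL1_const G B h]
  · unfold EF
    rw [Finset.not_nonempty_iff_eq_empty.1 h]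
    simpa using hc

end

theorem SL1 (h3 : G3_stmt) (h4 : G4_stmt) (hbg : BG_stmt) (hwd : WD_stmt) (hcc : CC_stmt)
    (hap : AP_stmt) : SL1_stmt := by
  intro V _ _ G d K θ h₀ h hreg hK hP h2 h3' o l r w A lam x u v m hA hw hrw hu hlam hx hv hm hsm
  obtain ⟨-, -, c3, c4, -⟩ := h4 V G {o}
  -- the constants
  set T1 := 2 * Real.exp (-(lam * x) + (v * (w * Nat.sqrt (Fintype.card V))) * lam ^ 2 *
          (u * (1 + MC θ * w) * (4 * h))) with hT1
  set T2 := lam * Real.exp (lam * (v * (w * Nat.sqrt (Fintype.card V)))) * Real.exp (-u) *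
            (MC θ * w) + 1 / (2 * u * h) * Real.exp (-(u / 2)) with hT2
  have hθ := hP.one_le
  have hMC : 0 ≤ MC θ := by
    unfold MC Pool.Agent.helper20.HP.CZ
    positivity
  have hT1p : 0 ≤ T1 := by rw [hT1]; positivity
  have hT2p : 0 ≤ T2 := by rw [hT2]; positivity
  rw [h3 V G {o} (fun f => sk {o} f l) (c3 l) (c4 l)]
  have step : ∀ f ∈ fors G {o},
      EF G (sk {o} f l) (fun g => ind (Hit K (sk {o} (glue (sk {o} f l) f g) l) h ∧
        ((sk {o} (glue (sk {o} f l) f g) l).card : ℝ) ≤ m ∧
        x < |bs o (glue (sk {o} f l) f g) r w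
          - PhiD G o (glue (sk {o} f l) f g) (sk {o} (glue (sk {o} f l) f g) l) r w|))
      ≤ (T1 + T2 * m) + ind (v * (w * Nat.sqrt (Fintype.card V)) <
        EF G (sk {o} f l) (nb (sk {o} f l) (sk {o} f l) (dep {o} f) r w)) := by
    intro f hf
    obtain ⟨-, w2, -⟩ := hwd V G o f l hf
    have hcl := c3 l f hf
    set D := sk {o} f l with hD
    have hDne : D.Nonempty := ⟨o, by rw [hD]; unfold sk; simp⟩
    have hDfor : (fors G D).Nonempty := fors_nonempty hreg.conn hDne
    -- the shift constant
    set k : ℝ := ((D.filter (fun x => r ≤ dep {o} f x ∧ dep {o} f x < r + w)).card : ℝ) with hk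
    have hbs : ∀ g ∈ fors G D, bs o (glue D f g) r w = nb D D (dep {o} f) r w g + k :=
      fun g hg => (hbg V G o f g D r w hf hcl hg).2
    have hPhi : PhiD G o f D r w = EF G D (nb D D (dep {o} f) r w) + k := by
      unfold PhiD
      rw [SL1_congr G D _ _ hbs, SL1_add, SL1_const G D hDfor]
    have e2 : EF G D (fun g => ind (Hit K (sk {o} (glue D f g) l) h ∧
        ((sk {o} (glue D f g) l).card : ℝ) ≤ m ∧
        x < |bs o (glue D f g) r w - PhiD G o (glue D f g) (sk {o} (glue D f g) l) r w|))
        = EF G D (fun g => ind (Hit K D h ∧ (D.card : ℝ) ≤ m ∧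
          x < |nb D D (dep {o} f) r w g - EF G D (nb D D (dep {o} f) r w)|)) := by
      refine SL1_congr G D _ _ fun g hg => ?_
      obtain ⟨-, w3, w4⟩ := w2 g hg
      rw [w3, w4 r w, hbs g hg, hPhi]
      have : nb D D (dep {o} f) r w g + k - (EF G D (nb D D (dep {o} f) r w) + k)
          = nb D D (dep {o} f) r w g - EF G D (nb D D (dep {o} f) r w) := by ring
      rw [this]
    rw [e2]
    by_cases hgood : Hit K D h ∧ (D.card : ℝ) ≤ m
    swap
    · refine le_trans (SL1_mono G D _ (fun _ => 0) fun g _ => ?_) ?_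
      · rw [ind_false (fun hh => hgood ⟨hh.1, hh.2.1⟩)]
      · refine (SL1_const_le G D 0 le_rfl).trans ?_
        have := ind_nonneg (v * (w * Nat.sqrt (Fintype.card V)) <
          EF G D (nb D D (dep {o} f) r w))
        positivity
    obtain ⟨hhit, hcard⟩ := hgood
    have e3 : EF G D (fun g => ind (Hit K D h ∧ (D.card : ℝ) ≤ m ∧
          x < |nb D D (dep {o} f) r w g - EF G D (nb D D (dep {o} f) r w)|))
        ≤ EF G D (fun g => ind (x < |nb D D (dep {o} f) r w g
          - EF G D (nb D D (dep {o} f) r w)|)) :=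
      SL1_mono G D _ _ fun g _ => ind_mono fun hh => hh.2.2
    refine e3.trans ?_
    by_cases hF : EF G D (nb D D (dep {o} f) r w) ≤ v * (w * Nat.sqrt (Fintype.card V))
    · have hc := hcc V G d K θ h₀ h hreg hK hP h2 h3' D hDne hhit (dep {o} f) r w lam x
        (v * (w * Nat.sqrt (Fintype.card V))) u hu hlam hx hsm hF
      refine hc.trans ?_
      have h5 : ((D.filter (fun y => dep {o} f y < r + w)).card : ℝ) ≤ m := by
        refine le_trans ?_ hcard
        exact_mod_cast Finset.card_filter_le _ _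
      have h6 : T2 * ((D.filter (fun y => dep {o} f y < r + w)).card : ℝ) ≤ T2 * m :=
        mul_le_mul_of_nonneg_left h5 hT2p
      have h7 := ind_nonneg (v * (w * Nat.sqrt (Fintype.card V)) <
        EF G D (nb D D (dep {o} f) r w))
      linarith
    · push Not at hF
      rw [ind_true hF]
      refine le_trans (SL1_mono G D _ (fun _ => 1) fun g _ => ind_le_one _) ?_
      refine (SL1_const_le G D 1 zero_le_one).trans ?_
      have : 0 ≤ T2 * m := mul_nonneg hT2p hm
      linarith
  refine (SL1_mono G {o} _ _ step).trans ?_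
  rw [SL1_add]
  refine add_le_add ?_ ?_
  · refine SL1_const_le G {o} _ ?_
    have : 0 ≤ T2 * m := mul_nonneg hT2p hm
    linarith
  · exact hap V G d K θ h₀ hreg hK hP o l r w A v hA hw hrw hv

end Pool.Agent.helper90.FN
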