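import Pool.Agent.helper90.FN.Goals
import Pool.Agent.helper20.HP.S0

/-!
Module WD: width of the skeleton spanned by a list, monotonicity of `Hit`, `PhiD` on classes.
-/

set_option autoImplicit false

open scoped BigOperators Topology
open Filter MeasureTheory

namespace Pool.Agent.helper90.FN

open Finset
open Pool.Agent.helper72.UT (IsFor dep pth rt fors mem_fors fors_nonempty rt_mem rt_not_mem pth_mem
  pth_not_mem pth_length pth_head)
open Pool.Agent.helper20.HP (ind HW W ind_mono W_mono)

section
variable {V : Type} [DecidableEq V] {G : SimpleGraph V} {B : Finset V} {f : V → V}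

/-- the vertices of a path have different depths -/
theorem WD_dep_inj (hf : IsFor G B f) (v x y : V) (hx : x ∈ pth B f v) (hy : y ∈ pth B f v)
    (h : dep B f x = dep B f y) : x = y := by
  have h1 : pth B f x <:+ pth B f v := by
    rw [← hf.dropWhile_pth v x hx]; exact List.dropWhile_suffix _
  have h2 : pth B f y <:+ pth B f v := by
    rw [← hf.dropWhile_pth v y hy]; exact List.dropWhile_suffix _
  have hl : (pth B f x).length = (pth B f y).length := by rw [pth_length, pth_length, h]
  have h3 : pth B f x <:+ pth B f y := List.suffix_of_suffix_length_le h1 h2 hl.le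
  have h4 : pth B f x = pth B f y := h3.eq_of_length hl
  have h5 := pth_head (B := B) (f := f) x
  rw [h4, pth_head] at h5
  simpa using h5.symm

end

theorem WD (h1 : G1_stmt) (h4 : G4_stmt) : WD_stmt := by
  intro V _ _ G o f l hf
  have hfor : IsFor G {o} f := mem_fors.1 hf
  refine ⟨?_, ?_, ?_⟩
  · intro q
    have hsub : (sk {o} f l).filter (fun x => dep {o} f x = q) ⊆
        {o} ∪ l.toFinset.biUnion
          (fun v => (pth {o} f v).toFinset.filter (fun x => dep {o} f x = q)) := by
      intro x hx
      rw [mem_filter] at hx
      unfold sk at hx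
      rw [mem_union, mem_biUnion] at hx ⊢
      rcases hx.1 with h | ⟨v, hv, h⟩
      · exact Or.inl h
      · exact Or.inr ⟨v, hv, mem_filter.2 ⟨h, hx.2⟩⟩
    refine (card_le_card hsub).trans ((card_union_le _ _).trans ?_)
    have hb : (l.toFinset.biUnion
        (fun v => (pth {o} f v).toFinset.filter (fun x => dep {o} f x = q))).card
        ≤ l.length := by
      refine card_biUnion_le.trans ?_
      have : ∀ v ∈ l.toFinset, ((pth {o} f v).toFinset.filter
          (fun x => dep {o} f x = q)).card ≤ 1 := by
        intro v _
        rw [card_le_one]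
        intro a ha b hb
        rw [mem_filter, List.mem_toFinset] at ha hb
        exact WD_dep_inj hfor v a b ha.1 hb.1 (ha.2.trans hb.2.symm)
      refine (sum_le_sum this).trans ?_
      rw [sum_const, smul_eq_mul, mul_one]
      exact l.toFinset_card_le
    rw [card_singleton]
    omega
  · intro g hg
    obtain ⟨-, -, c3, c4, -⟩ := h4 V G {o}
    have hcl := c3 l f hf
    have hgl := (h1 V G {o} (sk {o} f l) f g hf hcl hg).1
    refine ⟨hgl, c4 l f hf _ hgl (fun x hx => by simp [glue, hx]), ?_⟩
    intro r w
    unfold PhiD
    congr 1
    funext g'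
    congr 1
    funext x
    by_cases hx : x ∈ sk {o} f l <;> simp [glue, hx]
  · intro K D D' h hD hH x
    refine le_trans (W_mono K h x fun l _ => ?_) (hH x)
    exact ind_mono fun hl z hz hzD => hl z hz (hD hzD)

end Pool.Agent.helper90.FN
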