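import Pool.Agent.helper65.FN.BR
import Pool.Agent.helper65.FN.WD
import Pool.Agent.helper65.FN.SL1

/-!
Module CAP: a priori comparison of the conditional mean with a lower level.
-/

set_option autoImplicit false

open scoped BigOperators Topology
open Filter MeasureTheory

namespace Pool.Agent.helper90.FN

open Finset
open Pool.Agent.helper72.UT (IsFor dep pth rt fors mem_fors fors_nonempty Reg lz rt_mem self_mem_pth
  pth_mem)
open Pool.Agent.helper20.HP (ind HW W Par CP ind_nonneg ind_le_one ind_mono ind_true ind_false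
  W_nonneg)

section
variable {V : Type} [Fintype V] [DecidableEq V]

theorem CAP_cnt_nonneg (K : HW V) (D : Finset V) (y : V) (q t : ℕ) : 0 ≤ cnt K D y q t :=
  W_nonneg K t y fun _ _ => mul_nonneg (ind_nonneg _) (ind_nonneg _)

/-- one sided count -/
theorem CAP_count (hct : CT_stmt) (hcb : CB_stmt) (G : SimpleGraph V) (d : ℕ) (K : HW V) (θ : ℝ)
    (h₀ h : ℕ) (hreg : Reg G d) (hK : K.p = lz G d) (hP : Par K θ h₀) (h2 : 2 * h₀ ≤ h)
    (h4 : 4 * h ≤ Nat.sqrt (Fintype.card V)) (D : Finset V) (hH : Hit K D h) (y : V) (hy : y ∈ D)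
    (q : ℕ) : EF G D (fun g => ∑ v, ind (rt D g v = y ∧ dep D g v = q)) ≤ MC θ := by
  have hs := (hct V G d K hreg hK D y q hy).tendsto_sum_nat
  refine le_of_tendsto' hs fun N => ?_
  refine le_trans ?_ (hcb V K θ h₀ h hP h2 h4 D hH y q N)
  refine Finset.sum_le_sum fun t _ => ?_
  have h1 : 1 ≤ Real.exp (Real.log 2 / (2 * h) * t) := by
    apply Real.one_le_exp
    have := Real.log_nonneg (by norm_num : (1 : ℝ) ≤ 2)
    positivity
  exact le_mul_of_one_le_left (CAP_cnt_nonneg K D y q t) h1

theorem CAP_sum (G : SimpleGraph V) (B : Finset V) {ι : Type*} (s : Finset ι)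
    (F : ι → (V → V) → ℝ) : EF G B (fun f => ∑ i ∈ s, F i f) = ∑ i ∈ s, EF G B (F i) := by
  unfold EF
  rw [Finset.sum_comm, Finset.sum_div]

theorem CAP_mul (G : SimpleGraph V) (B : Finset V) (F : (V → V) → ℝ) (c : ℝ) :
    EF G B (fun f => F f * c) = EF G B F * c := by
  unfold EF
  rw [← Finset.sum_mul, div_mul_eq_mul_div]

/-- expected number of descendants at a given depth of a vertex `x` on the event `lev x = s` -/
theorem CAP_desc (h1 : G1_stmt) (h3 : G3_stmt) (h4 : G4_stmt) (G : SimpleGraph V) (D : Finset V)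
    (ℓ : V → ℕ) (x : V) (s k : ℕ) (M : ℝ) (hM : ∀ D', D ⊆ D' → x ∈ D' →
      EF G D' (fun g => ∑ v, ind (rt D' g v = x ∧ dep D' g v = k)) ≤ M) (hM0 : 0 ≤ M) :
    EF G D (fun g => ind (dep D g x + ℓ (rt D g x) = s) *
      ∑ v, ind (x ∈ pth D g v ∧ dep D g v = dep D g x + k))
      ≤ EF G D (fun g => ind (dep D g x + ℓ (rt D g x) = s)) * M := by
  obtain ⟨g1, g2, -, -, -⟩ := h4 V G D
  rw [h3 V G D (fun f => dn D f x) (g1 x) (fun f hf f' hf' h => (g2 x f hf f' hf' h).1)]
  rw [← CAP_mul]
  refine SL1_mono G D _ _ fun f hf => ?_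
  have hcl : Cl D (dn D f x) f := g1 x f hf
  have hfor : IsFor G D f := mem_fors.1 hf
  have hxD : x ∈ dn D f x := by
    unfold dn; rw [mem_union, List.mem_toFinset]; exact Or.inr (self_mem_pth x)
  have e : ∀ g ∈ fors G (dn D f x),
      ind (dep D (glue (dn D f x) f g) x + ℓ (rt D (glue (dn D f x) f g) x) = s) *
      ∑ v, ind (x ∈ pth D (glue (dn D f x) f g) v ∧ dep D (glue (dn D f x) f g) v
        = dep D (glue (dn D f x) f g) x + k)
      ≤ (∑ v, ind (rt (dn D f x) g v = x ∧ dep (dn D f x) g v = k)) *
        ind (dep D f x + ℓ (rt D f x) = s) := by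
    intro g hg
    obtain ⟨hgl, hrt, hdep, hpth⟩ := h1 V G D (dn D f x) f g hf hcl hg
    obtain ⟨-, -, r1, r2⟩ := g2 x f hf _ hgl (fun z hz => by simp [glue, hz])
    rw [r1, r2, mul_comm]
    refine mul_le_mul_of_nonneg_right ?_ (ind_nonneg _)
    refine Finset.sum_le_sum fun v _ => ind_mono ?_
    rintro ⟨hx, hd⟩
    have hgfor : IsFor G (dn D f x) g := mem_fors.1 hg
    have hz : rt (dn D f x) g v = x := by
      rcases (hpth v x).1 hx with h | h
      · exact (hgfor.mem_B_of_mem_pth v x h hxD).symm
      · have hzD := hgfor.rt_mem_B v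
        by_cases hzD' : rt (dn D f x) g v ∈ D
        · rw [pth_mem hzD', List.mem_singleton] at h
          exact h.symm
        · have hzp : rt (dn D f x) g v ∈ pth D f x := by
            unfold dn at hzD ⊢
            rw [mem_union, List.mem_toFinset] at hzD
            exact hzD.resolve_left hzD'
          have d1 := hfor.dep_le _ _ hzp
          have d2 := hfor.dep_le _ _ h
          exact WD_dep_inj hfor x _ _ hzp (self_mem_pth x) (le_antisymm d1 d2)
    refine ⟨hz, ?_⟩
    rw [hdep v, hz] at hd
    omega
  refine (SL1_mono G _ _ _ e).trans ?_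
  rw [CAP_mul, mul_comm]
  refine mul_le_mul_of_nonneg_left ?_ (ind_nonneg _)
  exact hM _ hcl.sub hxD

end

theorem CAP (h1 : G1_stmt) (h3 : G3_stmt) (h4 : G4_stmt) (hct : CT_stmt) (hcb : CB_stmt) :
    CAP_stmt := by
  intro V _ _ G d K θ h₀ h hreg hK hP h2 h5 o f D hf hcl hH
  have hMC : 0 ≤ MC θ := by
    have := hP.one_le
    unfold MC Pool.Agent.helper20.HP.CZ
    positivity
  have hHmono : ∀ D', D ⊆ D' → Hit K D' h := by
    intro D' hD x
    refine le_trans (Pool.Agent.helper20.HP.W_mono K h x fun l _ => ?_) (hH x)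
    exact ind_mono fun hl z hz hzD => hl z hz (hD hzD)
  have hcount : ∀ D', D ⊆ D' → ∀ y ∈ D', ∀ q,
      EF G D' (fun g => ∑ v, ind (rt D' g v = y ∧ dep D' g v = q)) ≤ MC θ :=
    fun D' hD y hy q => CAP_count hct hcb G d K θ h₀ h hreg hK hP h2 h5 D' (hHmono D' hD) y hy q
  constructor
  · intro s r hsr
    -- the tree has two kinds of vertices at level `r`
    have hlev : ∀ g ∈ fors G D, ∀ v, dep {o} (glue D f g) v = dep D g v + dep {o} f (rt D g v) :=
      fun g hg => (h1 V G {o} D f g hf hcl hg).2.2.1
    have e1 : PhiD G o f D r 1 ≤ EF G D (fun g =>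
        (∑ y ∈ D.filter (fun x => s < dep {o} f x ∧ dep {o} f x ≤ r),
          ∑ v, ind (rt D g v = y ∧ dep D g v = r - dep {o} f y)) +
        ∑ x, ind (dep D g x + dep {o} f (rt D g x) = s) *
          ∑ v, ind (x ∈ pth D g v ∧ dep D g v = dep D g x + (r - s))) := by
      unfold PhiD
      refine SL1_mono G D _ _ fun g hg => ?_
      have hgfor : IsFor G D g := mem_fors.1 hg
      unfold bs
      simp_rw [Finset.mul_sum]
      rw [Finset.sum_comm, Finset.sum_comm (s := (univ : Finset V)) (t := (univ : Finset V)),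
        ← Finset.sum_add_distrib]
      refine Finset.sum_le_sum fun v _ => ?_
      by_cases hv : r ≤ dep {o} (glue D f g) v ∧ dep {o} (glue D f g) v < r + 1
      swap
      · rw [ind_false hv]
        refine add_nonneg (Finset.sum_nonneg fun _ _ => ind_nonneg _)
          (Finset.sum_nonneg fun _ _ => mul_nonneg (ind_nonneg _) (ind_nonneg _))
      rw [ind_true hv]
      rw [hlev g hg v] at hv
      by_cases hs : s < dep {o} f (rt D g v)
      · have hmem : rt D g v ∈ D.filter (fun x => s < dep {o} f x ∧ dep {o} f x ≤ r) := by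
          rw [mem_filter]; exact ⟨hgfor.rt_mem_B v, hs, by omega⟩
        have h6 : (1 : ℝ) ≤ ∑ y ∈ D.filter (fun x => s < dep {o} f x ∧ dep {o} f x ≤ r),
            ind (rt D g v = y ∧ dep D g v = r - dep {o} f y) := by
          refine le_trans (le_of_eq ?_) (Finset.single_le_sum (f := fun y =>
            ind (rt D g v = y ∧ dep D g v = r - dep {o} f y)) (fun y _ => ind_nonneg _) hmem)
          exact (ind_true ⟨rfl, by omega⟩).symm
        have h8 : 0 ≤ ∑ x, ind (dep D g x + dep {o} f (rt D g x) = s) *
            ind (x ∈ pth D g v ∧ dep D g v = dep D g x + (r - s)) :=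
          Finset.sum_nonneg fun _ _ => mul_nonneg (ind_nonneg _) (ind_nonneg _)
        linarith
      · push Not at hs
        -- the vertex of the path of `v` at level `s`
        obtain ⟨x, hx1, hx2⟩ : ∃ x, x ∈ pth D g v ∧ dep D g x = s - dep {o} f (rt D g v) := by
          have hle : s - dep {o} f (rt D g v) ≤ dep D g v := by omega
          clear hv
          revert hle
          generalize s - dep {o} f (rt D g v) = m
          intro hle
          -- walk down the path
          have : ∀ j, ∀ v, dep D g v = m + j → ∃ x, x ∈ pth D g v ∧ dep D g x = m := by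
            intro j
            induction j with
            | zero => intro v hv; exact ⟨v, self_mem_pth v, hv⟩
            | succ j ih =>
              intro v hv
              have hvD : v ∉ D := by
                intro h
                rw [Pool.Agent.helper72.UT.dep_mem h] at hv
                omega
              have h9 := Pool.Agent.helper72.UT.dep_not_mem hvD (hgfor.hit v)
              obtain ⟨x, hx, hx'⟩ := ih (g v) (by omega)
              refine ⟨x, ?_, hx'⟩
              rw [Pool.Agent.helper72.UT.pth_not_mem hvD (hgfor.hit v)]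
              exact List.mem_cons_of_mem _ hx
          exact this (dep D g v - m) v (by omega)
        have hrx : rt D g x = rt D g v := hgfor.rt_of_mem_pth v x hx1
        have h7 : ind (dep D g x + dep {o} f (rt D g x) = s) = 1 := by
          apply ind_true; rw [hrx]; omega
        have h8 : ind (x ∈ pth D g v ∧ dep D g v = dep D g x + (r - s)) = 1 := by
          apply ind_true; exact ⟨hx1, by omega⟩
        have h6 : (1 : ℝ) ≤ ∑ x, ind (dep D g x + dep {o} f (rt D g x) = s) *
            ind (x ∈ pth D g v ∧ dep D g v = dep D g x + (r - s)) := by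
          refine le_trans (le_of_eq ?_) (Finset.single_le_sum (f := fun x =>
            ind (dep D g x + dep {o} f (rt D g x) = s) *
              ind (x ∈ pth D g v ∧ dep D g v = dep D g x + (r - s)))
            (fun x _ => mul_nonneg (ind_nonneg _) (ind_nonneg _)) (mem_univ x))
          show 1 = ind (dep D g x + dep {o} f (rt D g x) = s) *
              ind (x ∈ pth D g v ∧ dep D g v = dep D g x + (r - s))
          rw [h7, h8, mul_one]
        have h9 : 0 ≤ ∑ y ∈ D.filter (fun x => s < dep {o} f x ∧ dep {o} f x ≤ r),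
            ind (rt D g v = y ∧ dep D g v = r - dep {o} f y) :=
          Finset.sum_nonneg fun _ _ => ind_nonneg _
        linarith
    refine e1.trans ?_
    rw [SL1_add, CAP_sum, CAP_sum]
    have a1 : ∑ y ∈ D.filter (fun x => s < dep {o} f x ∧ dep {o} f x ≤ r),
        EF G D (fun g => ∑ v, ind (rt D g v = y ∧ dep D g v = r - dep {o} f y))
        ≤ ((D.filter (fun x => s < dep {o} f x ∧ dep {o} f x ≤ r)).card : ℝ) * MC θ := by
      rw [← nsmul_eq_mul, ← Finset.sum_const]
      refine Finset.sum_le_sum fun y hy => ?_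
      exact hcount D (Subset.refl _) y (mem_filter.1 hy).1 _
    have a2 : ∑ x, EF G D (fun g => ind (dep D g x + dep {o} f (rt D g x) = s) *
          ∑ v, ind (x ∈ pth D g v ∧ dep D g v = dep D g x + (r - s)))
        ≤ PhiD G o f D s 1 * MC θ := by
      have e3 : PhiD G o f D s 1 = ∑ x, EF G D (fun g =>
          ind (dep D g x + dep {o} f (rt D g x) = s)) := by
        unfold PhiD
        rw [← CAP_sum]
        refine SL1_congr G D _ _ fun g hg => ?_
        unfold bs
        refine Finset.sum_congr rfl fun v _ => ?_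
        rw [hlev g hg v]
        unfold ind
        congr 1
        apply propext
        constructor
        · rintro ⟨a, b⟩; omega
        · intro a; omega
      rw [e3, Finset.sum_mul]
      refine Finset.sum_le_sum fun x _ => ?_
      exact CAP_desc h1 h3 h4 G D (dep {o} f) x s (r - s) (MC θ)
        (fun D' hD hx => hcount D' hD x hx (r - s)) hMC
    linarith
  · intro r
    rw [BR_value h1 V G o f D hf hcl r]
    have : ∀ y ∈ D, (if dep {o} f y ≤ r then
        EF G D (fun g => ∑ v, ind (rt D g v = y ∧ dep D g v = r - dep {o} f y)) else 0)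
        ≤ if dep {o} f y ≤ r then MC θ else 0 := by
      intro y hy
      split_ifs
      · exact hcount D (Subset.refl _) y hy _
      · exact le_rfl
    refine (Finset.sum_le_sum this).trans ?_
    rw [← Finset.sum_filter, Finset.sum_const, nsmul_eq_mul, mul_comm]

end Pool.Agent.helper90.FN
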