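import Pool.Agent.helper90.FN.Spec

/-!
Module DOM: domination. Adding roots decreases (stochastically) the part of the uniform spanning forest
which is attached to a given set `S` of roots.
-/

set_option autoImplicit false

open scoped BigOperators Topology
open Filter MeasureTheory

namespace Pool.Agent.helper90.FN

open Finset
open Pool.Agent.helper72.UT (IsFor dep pth rt fors mem_fors fors_nonempty rt_mem rt_not_mem pth_mem
  pth_not_mem)
open Pool.Agent.helper20.HP (ind)

section Graph

variable {V : Type} [DecidableEq V] {G : SimpleGraph V} {R : Finset V} {y : V}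

/-- removing the edge at `y` -/
theorem DOM_cut {f : V → V} (hf : IsFor G R f) (hy : y ∉ R) :
    IsFor G (insert y R) (Function.update f y y) ∧
      ∀ v, y ∉ pth R f v → rt (insert y R) (Function.update f y y) v = rt R f v := by
  set g := Function.update f y y with hg
  have hgy : g y = y := by simp [hg]
  have hgn : ∀ v, v ≠ y → g v = f v := fun v hv => by simp [hg, hv]
  have hgF : IsFor G (insert y R) g := by
    refine ⟨?_, ?_, ?_⟩
    · intro v hv
      by_cases h : v = y
      · rw [h, hgy]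
      · rw [hgn v h]
        exact hf.fix v ((mem_insert.1 hv).resolve_left h)
    · intro v hv
      rw [mem_insert, not_or] at hv
      rw [hgn v hv.1]
      exact hf.adj v hv.2
    · intro v
      refine hf.ind (P := fun v => ∃ k, g^[k] v ∈ insert y R) ?_ ?_ v
      · intro v hv; exact ⟨0, by simp [hv]⟩
      · intro v hv ih
        by_cases h : v = y
        · exact ⟨0, by simp [h]⟩
        · obtain ⟨k, hk⟩ := ih
          refine ⟨k + 1, ?_⟩
          rw [Function.iterate_succ_apply, hgn v h]; exact hk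
  refine ⟨hgF, ?_⟩
  intro v
  refine hf.ind (P := fun v => y ∉ pth R f v → rt (insert y R) g v = rt R f v) ?_ ?_ v
  · intro v hv _
    rw [rt_mem hv, rt_mem (mem_insert_of_mem hv)]
  · intro v hv ih hyv
    rw [pth_not_mem hv (hf.hit v), List.mem_cons, not_or] at hyv
    have h1 : v ∉ insert y R := by
      rw [mem_insert, not_or]; exact ⟨Ne.symm hyv.1, hv⟩
    rw [rt_not_mem hv (hf.hit v), rt_not_mem h1 (hgF.hit v), hgn v (Ne.symm hyv.1)]
    exact ih hyv.2

/-- adding an edge at the root `y` -/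
theorem DOM_join {f : V → V} (hf : IsFor G (insert y R) f) (hy : y ∉ R) {z : V}
    (hz : G.Adj y z) (hr : rt (insert y R) f z ≠ y) :
    IsFor G R (Function.update f y z) ∧
      ∀ v, rt (insert y R) f v ≠ y → rt R (Function.update f y z) v = rt (insert y R) f v := by
  set g := Function.update f y z with hg
  have hgy : g y = z := by simp [hg]
  have hgn : ∀ v, v ≠ y → g v = f v := fun v hv => by simp [hg, hv]
  have hit1 : ∀ v, rt (insert y R) f v ≠ y → ∃ k, g^[k] v ∈ R := by
    intro v
    refine hf.ind (P := fun v => rt (insert y R) f v ≠ y → ∃ k, g^[k] v ∈ R) ?_ ?_ v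
    · intro v hv h
      rw [rt_mem hv] at h
      exact ⟨0, by simpa using (mem_insert.1 hv).resolve_left h⟩
    · intro v hv ih h
      rw [rt_not_mem hv (hf.hit v)] at h
      obtain ⟨k, hk⟩ := ih h
      rw [mem_insert, not_or] at hv
      refine ⟨k + 1, ?_⟩
      rw [Function.iterate_succ_apply, hgn v hv.1]; exact hk
  have hgF : IsFor G R g := by
    refine ⟨?_, ?_, ?_⟩
    · intro v hv
      have h : v ≠ y := by rintro rfl; exact hy hv
      rw [hgn v h]
      exact hf.fix v (mem_insert_of_mem hv)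
    · intro v hv
      by_cases h : v = y
      · rw [h, hgy]; exact hz
      · rw [hgn v h]
        exact hf.adj v (by rw [mem_insert, not_or]; exact ⟨h, hv⟩)
    · intro v
      refine hf.ind (P := fun v => ∃ k, g^[k] v ∈ R) ?_ ?_ v
      · intro v hv
        rcases mem_insert.1 hv with h | h
        · obtain ⟨k, hk⟩ := hit1 z hr
          refine ⟨k + 1, ?_⟩
          rw [Function.iterate_succ_apply, h, hgy]; exact hk
        · exact ⟨0, by simpa using h⟩
      · intro v hv ih
        obtain ⟨k, hk⟩ := ih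
        rw [mem_insert, not_or] at hv
        refine ⟨k + 1, ?_⟩
        rw [Function.iterate_succ_apply, hgn v hv.1]; exact hk
  refine ⟨hgF, ?_⟩
  intro v
  refine hf.ind (P := fun v => rt (insert y R) f v ≠ y → rt R g v = rt (insert y R) f v) ?_ ?_ v
  · intro v hv h
    rw [rt_mem hv] at h
    rw [rt_mem hv, rt_mem ((mem_insert.1 hv).resolve_left h)]
  · intro v hv ih h
    rw [rt_not_mem hv (hf.hit v)] at h ⊢
    rw [mem_insert, not_or] at hv
    rw [rt_not_mem hv.2 (hgF.hit v), hgn v hv.1]
    exact ih h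

end Graph

section Sum

variable {V : Type} [Fintype V] [DecidableEq V]

/-- forests rooted at `R` = forests rooted at `insert y R` with an edge at `y` which does not close a
cycle -/
theorem DOM_sum (G : SimpleGraph V) (R : Finset V) (y : V) (hy : y ∉ R) (F : (V → V) → ℝ) :
    ∑ f ∈ fors G R, F f = ∑ f ∈ fors G (insert y R), ∑ z,
      ind (G.Adj y z ∧ rt (insert y R) f z ≠ y) * F (Function.update f y z) := by
  classical
  have e : ∑ f ∈ fors G (insert y R), ∑ z,
      ind (G.Adj y z ∧ rt (insert y R) f z ≠ y) * F (Function.update f y z)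
      = ∑ t ∈ ((fors G (insert y R)) ×ˢ (univ : Finset V)).filter
          (fun t => G.Adj y t.2 ∧ rt (insert y R) t.1 t.2 ≠ y), F (Function.update t.1 y t.2) := by
    rw [Finset.sum_filter, Finset.sum_product]
    refine Finset.sum_congr rfl fun f _ => Finset.sum_congr rfl fun z _ => ?_
    unfold ind
    split_ifs with h
    · rw [one_mul]
    · rw [zero_mul]
  rw [e]
  refine Finset.sum_bij' (fun f _ => (Function.update f y y, f y))
    (fun t _ => Function.update t.1 y t.2) ?_ ?_ ?_ ?_ ?_
  · intro f hf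
    rw [mem_fors] at hf
    obtain ⟨h1, h2⟩ := DOM_cut hf hy
    rw [mem_filter, mem_product, mem_fors]
    refine ⟨⟨h1, mem_univ _⟩, hf.adj y hy, ?_⟩
    show rt (insert y R) (Function.update f y y) (f y) ≠ y
    rw [h2 (f y) (hf.not_mem_pth_parent hy)]
    intro h
    exact hy (h ▸ hf.rt_mem_B (f y))
  · intro t ht
    rw [mem_filter, mem_product, mem_fors] at ht
    rw [mem_fors]
    exact (DOM_join ht.1.1 hy ht.2.1 ht.2.2).1
  · intro f _
    simp
  · intro t ht
    rw [mem_filter, mem_product, mem_fors] at ht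
    have : t.1 y = y := ht.1.1.fix y (mem_insert_self _ _)
    ext1
    · funext x
      by_cases h : x = y
      · subst h; simp [this]
      · simp [h]
    · simp
  · intro f _
    simp

theorem DOM_EF_mono (G : SimpleGraph V) (B : Finset V) (F F' : (V → V) → ℝ)
    (h : ∀ f ∈ fors G B, F f ≤ F' f) : EF G B F ≤ EF G B F' := by
  unfold EF
  exact div_le_div_of_nonneg_right (Finset.sum_le_sum h) (Nat.cast_nonneg _)

theorem DOM_EF_mul (G : SimpleGraph V) (B : Finset V) (F : (V → V) → ℝ) (c : ℝ) :
    EF G B (fun f => F f * c) = EF G B F * c := by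
  unfold EF
  rw [← Finset.sum_mul, div_mul_eq_mul_div]

theorem DOM_EF_zero (G : SimpleGraph V) (B : Finset V) : EF G B (fun _ => 0) = 0 := by
  unfold EF
  simp

/-- conditioning on the path of `z` -/
theorem DOM_tower (h1 : G1_stmt) (h3 : G3_stmt) (h4 : G4_stmt) (G : SimpleGraph V)
    (S C : Finset V) (z y : V) (hSC : S ⊆ C) (hyS : y ∉ S)
    (Q : Finset V → (V → V) → ℝ)
    (hQ : ∀ R R' : Finset V, ∀ f f' : V → V, S ⊆ R → S ⊆ R' → f ∈ fors G R → f' ∈ fors G R' →
      (∀ v, v ∉ R' → rt R' f' v ∈ S → v ∉ R ∧ f v = f' v ∧ rt R f v ∈ S) → Q R' f' ≤ Q R f)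
    (E : ℝ) (hE : ∀ D, C ⊆ D → EF G D (Q D) ≤ E) :
    EF G C (fun f => ind (rt C f z = y) * Q C f) ≤ EF G C (fun f => ind (rt C f z = y)) * E := by
  obtain ⟨g1, g2, -, -, -⟩ := h4 V G C
  rw [h3 V G C (fun f => dn C f z) (g1 z) (fun f hf f' hf' h => (g2 z f hf f' hf' h).1)]
  rw [← DOM_EF_mul]
  refine DOM_EF_mono G C _ _ fun f hf => ?_
  have hcl : Cl C (dn C f z) f := g1 z f hf
  -- on the class of `f` the root of `z` is the same
  have hrt : ∀ g ∈ fors G (dn C f z), rt C (glue (dn C f z) f g) z = rt C f z := by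
    intro g hg
    have hgl := (h1 V G C (dn C f z) f g hf hcl hg).1
    exact (g2 z f hf _ hgl (fun x hx => by simp [glue, hx])).2.2.1
  by_cases hr : rt C f z = y
  · have e1 : ind (rt C f z = y) = 1 := by unfold ind; rw [if_pos hr]
    rw [e1, one_mul]
    refine le_trans ?_ (hE _ hcl.sub)
    refine DOM_EF_mono G _ _ _ fun g hg => ?_
    have e2 : ind (rt C (glue (dn C f z) f g) z = y) = 1 := by
      unfold ind; rw [if_pos ((hrt g hg).trans hr)]
    rw [e2, one_mul]
    obtain ⟨hgl, hgrt, -, -⟩ := h1 V G C (dn C f z) f g hf hcl hg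
    refine hQ (dn C f z) C g _ (hSC.trans hcl.sub) hSC hg hgl ?_
    intro v hv hvS
    -- the vertex `v` is attached to `S`: it is not on the path of `z`
    have hpz : ∀ x ∈ dn C f z, x ∉ C → rt C f x = y := by
      intro x hx hxC
      unfold dn at hx
      rw [mem_union, List.mem_toFinset] at hx
      rw [(mem_fors.1 hf).rt_of_mem_pth z x (hx.resolve_left hxC), hr]
    have hvD : v ∉ dn C f z := by
      intro h
      rw [hgrt v, rt_mem h, hpz v h hv] at hvS
      exact hyS hvS
    refine ⟨hvD, by simp [glue, hvD], ?_⟩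
    rw [hgrt v] at hvS
    by_cases hC : rt (dn C f z) g v ∈ C
    · rwa [rt_mem hC] at hvS
    · rw [hpz _ ((mem_fors.1 hg).rt_mem_B v) hC] at hvS
      exact absurd hvS hyS
  · have e1 : ind (rt C f z = y) = 0 := by unfold ind; rw [if_neg hr]
    rw [e1, zero_mul]
    refine le_trans (DOM_EF_mono G _ _ (fun _ => 0) fun g hg => ?_) (DOM_EF_zero G _).le
    have e2 : ind (rt C (glue (dn C f z) f g) z = y) = 0 := by
      unfold ind; rw [if_neg (by rw [hrt g hg]; exact hr)]
    rw [e2, zero_mul]

/-- one new root -/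
theorem DOM_step (h1 : G1_stmt) (h3 : G3_stmt) (h4 : G4_stmt) (G : SimpleGraph V)
    (hG : G.Connected) (S R : Finset V) (y : V) (hSR : S ⊆ R) (hS : S.Nonempty) (hy : y ∉ R)
    (Q : Finset V → (V → V) → ℝ)
    (hQ : ∀ R R' : Finset V, ∀ f f' : V → V, S ⊆ R → S ⊆ R' → f ∈ fors G R → f' ∈ fors G R' →
      (∀ v, v ∉ R' → rt R' f' v ∈ S → v ∉ R ∧ f v = f' v ∧ rt R f v ∈ S) → Q R' f' ≤ Q R f)
    (hE : ∀ D, insert y R ⊆ D → EF G D (Q D) ≤ EF G (insert y R) (Q (insert y R))) :
    EF G (insert y R) (Q (insert y R)) ≤ EF G R (Q R) := by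
  set C := insert y R with hC
  set E := EF G C (Q C) with hEdef
  have hyS : y ∉ S := fun h => hy (hSR h)
  have hSC : S ⊆ C := hSR.trans (subset_insert _ _)
  have hRne : R.Nonempty := hS.mono hSR
  have hcR : (0 : ℝ) < ((fors G R).card : ℝ) := by
    exact_mod_cast Finset.card_pos.2 (fors_nonempty hG hRne)
  have hcC : (0 : ℝ) < ((fors G C).card : ℝ) := by
    exact_mod_cast Finset.card_pos.2 (fors_nonempty hG (hRne.mono (subset_insert _ _)))
  have hpos : ∀ p : Prop, 0 ≤ ind p := fun p => by unfold ind; split_ifs <;> norm_num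
  -- counting
  have k1 : ((fors G R).card : ℝ) = ∑ f ∈ fors G C, ∑ z, ind (G.Adj y z ∧ rt C f z ≠ y) := by
    have := DOM_sum G R y hy (fun _ => 1)
    simpa using this
  have k2 : ∑ f ∈ fors G C, ∑ z, ind (G.Adj y z ∧ rt C f z ≠ y) * Q C f
      ≤ ∑ f ∈ fors G R, Q R f := by
    rw [DOM_sum G R y hy (Q R)]
    refine Finset.sum_le_sum fun f hf => Finset.sum_le_sum fun z _ => ?_
    by_cases h : G.Adj y z ∧ rt C f z ≠ y
    · refine mul_le_mul_of_nonneg_left ?_ (hpos _)
      obtain ⟨j1, j2⟩ := DOM_join (mem_fors.1 hf) hy h.1 h.2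
      refine hQ R C _ f hSR hSC (mem_fors.2 j1) hf ?_
      intro v hv hvS
      have hvy : rt C f v ≠ y := fun h => hyS (h ▸ hvS)
      rw [hC, mem_insert, not_or] at hv
      refine ⟨hv.2, ?_, ?_⟩
      · simp [hv.1]
      · rw [j2 v hvy]; exact hvS
    · have : ind (G.Adj y z ∧ rt C f z ≠ y) = 0 := by unfold ind; rw [if_neg h]
      rw [this, zero_mul, zero_mul]
  -- negative correlation
  have k3 : ∀ z, ∑ f ∈ fors G C, ind (rt C f z = y) * Q C f
      ≤ (∑ f ∈ fors G C, ind (rt C f z = y)) * E := by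
    intro z
    have := DOM_tower h1 h3 h4 G S C z y hSC hyS Q hQ E hE
    unfold EF at this
    rw [div_mul_eq_mul_div, div_le_div_iff_of_pos_right hcC] at this
    exact this
  have k4 : ∑ f ∈ fors G C, Q C f = ((fors G C).card : ℝ) * E := by
    rw [hEdef]; unfold EF; field_simp
  have hind : ∀ (f : V → V) (z : V), ind (G.Adj y z ∧ rt C f z ≠ y)
      = ind (G.Adj y z) * (1 - ind (rt C f z = y)) := by
    intro f z
    unfold ind
    by_cases a : G.Adj y z <;> by_cases b : rt C f z = y <;> simp [a, b]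
  have k5 : (∑ f ∈ fors G C, ∑ z, ind (G.Adj y z ∧ rt C f z ≠ y)) * E
      ≤ ∑ f ∈ fors G C, ∑ z, ind (G.Adj y z ∧ rt C f z ≠ y) * Q C f := by
    rw [Finset.sum_comm, Finset.sum_comm (s := fors G C), Finset.sum_mul]
    refine Finset.sum_le_sum fun z _ => ?_
    have a1 : ∑ f ∈ fors G C, ind (G.Adj y z ∧ rt C f z ≠ y) * Q C f
        = ind (G.Adj y z) * (((fors G C).card : ℝ) * E
          - ∑ f ∈ fors G C, ind (rt C f z = y) * Q C f) := by
      rw [← k4, ← Finset.sum_sub_distrib, Finset.mul_sum]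
      refine Finset.sum_congr rfl fun f _ => ?_
      rw [hind]; ring
    have a2 : (∑ f ∈ fors G C, ind (G.Adj y z ∧ rt C f z ≠ y)) * E
        = ind (G.Adj y z) * (((fors G C).card : ℝ) * E
          - (∑ f ∈ fors G C, ind (rt C f z = y)) * E) := by
      have : ((fors G C).card : ℝ) = ∑ f ∈ fors G C, (1 : ℝ) := by simp
      rw [this, ← sub_mul, ← Finset.sum_sub_distrib, ← mul_assoc, Finset.mul_sum]
      congr 1
      refine Finset.sum_congr rfl fun f _ => ?_
      rw [hind]
    rw [a1, a2]
    refine mul_le_mul_of_nonneg_left ?_ (hpos _)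
    linarith [k3 z]
  have k6 : ((fors G R).card : ℝ) * E ≤ ∑ f ∈ fors G R, Q R f := by
    rw [k1]; exact k5.trans k2
  have k7 : EF G R (Q R) = (∑ f ∈ fors G R, Q R f) / ((fors G R).card : ℝ) := rfl
  rw [k7, le_div_iff₀ hcR]
  linarith

/-- **DOM** -/
theorem DOM (h1 : G1_stmt) (h3 : G3_stmt) (h4 : G4_stmt) : DOM_stmt := by
  intro V _ _ G S Q hS hG hQ
  have key : ∀ n : ℕ, ∀ R : Finset V, S ⊆ R → (univ \ R).card = n → ∀ R', R ⊆ R' →
      EF G R' (Q R') ≤ EF G R (Q R) := by
    intro n
    induction n using Nat.strong_induction_on with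
    | _ n ih =>
      intro R hSR hn R' hRR'
      by_cases hsub : R' ⊆ R
      · rw [Finset.Subset.antisymm hRR' hsub]
      · obtain ⟨y, hyR', hyR⟩ := Finset.not_subset.1 hsub
        have hins : insert y R ⊆ R' := Finset.insert_subset hyR' hRR'
        have hlt : (univ \ insert y R).card < n := by
          rw [← hn]
          refine Finset.card_lt_card ?_
          refine ⟨sdiff_subset_sdiff (Subset.refl _) (subset_insert _ _), ?_⟩
          intro h
          have : y ∈ univ \ insert y R := h (by simp [hyR])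
          simp at this
        have hIH := ih _ hlt (insert y R) (hSR.trans (subset_insert _ _)) rfl
        exact (hIH R' hins).trans (DOM_step h1 h3 h4 G hG S R y hSR hS hyR Q hQ hIH)
  intro R R' hSR hRR'
  exact key _ R hSR rfl R' hRR'

end Sum

end Pool.Agent.helper90.FN
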